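import Pool.Agent.Run7.h58.AR.Iface

/-!
# MP_0d9f0f_an (helper58), piece CAU (helper888)

Cauchy's theorem for a bounded holomorphic function, continuous up to the circle without one point.
-/

set_option autoImplicit false

open MeasureTheory Filter Topology Set Complex Pool.Agent.Run7.h58.AR

namespace Pool.Agent.Run7.h888.AR

lemma norm_e (θ : ℝ) : ‖exp (θ * I)‖ = 1 := Complex.norm_exp_ofReal_mul_I θ

lemma mean_ball (G : ℂ → ℂ) (hG : DifferentiableOn ℂ G D) (s : ℝ) (h0 : 0 < s) (h1 : s < 1) :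
    mean (fun θ => G (s * exp (θ * I))) = G 0 := by
  have hcl : DiffContOnCl ℂ G (Metric.ball 0 |s|) := by
    rw [abs_of_pos h0]
    apply DifferentiableOn.diffContOnCl
    apply hG.mono
    rw [closure_ball _ h0.ne']
    exact Metric.closedBall_subset_ball h1
  have h := hcl.circleAverage
  rw [Real.circleAverage_def] at h
  rw [mean, ← h]
  have hper : Function.Periodic (fun θ : ℝ => G (circleMap 0 s θ)) (2 * Real.pi) := by
    intro θ
    change G (circleMap 0 s (θ + 2 * Real.pi)) = G (circleMap 0 s θ)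
    rw [periodic_circleMap 0 s θ]
  have e := hper.intervalIntegral_add_eq (-Real.pi) 0
  rw [show -Real.pi + 2 * Real.pi = Real.pi by ring, zero_add] at e
  have e2 : (fun θ : ℝ => G (circleMap 0 s θ)) = fun θ : ℝ => G (s * exp (θ * I)) := by
    funext θ
    simp [circleMap]
  rw [e2] at e
  rw [e2, ← e, Complex.real_smul]
  push_cast
  rfl

lemma mem_D (s : ℝ) (h0 : 0 ≤ s) (h1 : s < 1) (θ : ℝ) : (s : ℂ) * exp (θ * I) ∈ D := by
  rw [D, Metric.mem_ball, dist_zero_right, norm_mul, norm_e, mul_one, Complex.norm_real,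
    Real.norm_of_nonneg h0]
  exact h1

lemma exp_ne_one {θ : ℝ} (h1 : -Real.pi < θ) (h2 : θ ≤ Real.pi) (h0 : θ ≠ 0) :
    exp (θ * I) ≠ 1 := by
  intro h
  rw [Complex.exp_eq_one_iff] at h
  obtain ⟨n, hn⟩ := h
  have hn' : (θ : ℂ) = ((n * (2 * Real.pi) : ℝ) : ℂ) := by
    have : (θ : ℂ) * I = (n * (2 * Real.pi)) * I := by rw [hn]; ring
    have := mul_right_cancel₀ I_ne_zero this
    rw [this]; push_cast; ring
  have h3 : θ = n * (2 * Real.pi) := by exact_mod_cast hn'
  have hpi := Real.pi_pos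
  have a1 : (n : ℝ) < 1 := by
    by_contra hc
    push Not at hc
    nlinarith
  have a2 : (-1 : ℝ) < n := by
    by_contra hc
    push Not at hc
    nlinarith
  have b1 : n < 1 := by exact_mod_cast a1
  have b2 : -1 < n := by exact_mod_cast a2
  have : n = 0 := by omega
  rw [this] at h3
  simp at h3
  exact h0 h3

lemma mem_D1 {θ : ℝ} (h1 : -Real.pi < θ) (h2 : θ ≤ Real.pi) (h0 : θ ≠ 0) : exp (θ * I) ∈ D1 := by
  refine ⟨?_, ?_⟩
  · rw [Metric.mem_closedBall, dist_zero_right, norm_e]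
  · simpa using exp_ne_one h1 h2 h0

lemma D_sub : D ⊆ D1 := by
  intro z hz
  refine ⟨Metric.ball_subset_closedBall hz, ?_⟩
  rintro rfl
  simp [D] at hz

/-- the radial limits -/
lemma tend_rad (G : ℂ → ℂ) (hc : ContinuousOn G D1) {θ : ℝ} (h1 : -Real.pi < θ)
    (h2 : θ ≤ Real.pi) (h0 : θ ≠ 0) :
    Tendsto (fun s : ℝ => G (s * exp (θ * I))) (𝓝[<] 1) (𝓝 (G (exp (θ * I)))) := by
  have hcw := hc (exp (θ * I)) (mem_D1 h1 h2 h0)
  refine hcw.tendsto.comp ?_
  rw [tendsto_nhdsWithin_iff]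
  constructor
  · have : Tendsto (fun s : ℝ => (s : ℂ) * exp (θ * I)) (𝓝 1) (𝓝 (((1 : ℝ) : ℂ) * exp (θ * I))) := by
      apply Continuous.tendsto
      fun_prop
    rw [Complex.ofReal_one, one_mul] at this
    exact this.mono_left nhdsWithin_le_nhds
  · have : ∀ᶠ s : ℝ in 𝓝[<] 1, 0 < s ∧ s < 1 := by
      filter_upwards [Ioo_mem_nhdsLT (zero_lt_one (α := ℝ))] with s hs using hs
    filter_upwards [this] with s hs
    exact D_sub (mem_D s hs.1.le hs.2 θ)

lemma cau1 (G : ℂ → ℂ) (C : ℝ) (hG : DifferentiableOn ℂ G D) (hc : ContinuousOn G D1)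
    (hb : ∀ z ∈ D, ‖G z‖ ≤ C) : mean (fun θ => G (exp (θ * I))) = G 0 := by
  have hev : ∀ᶠ s : ℝ in 𝓝[<] 1, 0 < s ∧ s < 1 := by
    filter_upwards [Ioo_mem_nhdsLT (zero_lt_one (α := ℝ))] with s hs using hs
  have hT : Tendsto (fun s : ℝ => ∫ θ in (-Real.pi)..Real.pi, G (s * exp (θ * I))) (𝓝[<] 1)
      (𝓝 (∫ θ in (-Real.pi)..Real.pi, G (exp (θ * I)))) := by
    apply intervalIntegral.tendsto_integral_filter_of_dominated_convergence (fun _ => C)
    · filter_upwards [hev] with s hs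
      have : Continuous (fun θ : ℝ => G (s * exp (θ * I))) := by
        apply hG.continuousOn.comp_continuous (by fun_prop)
        intro θ
        exact mem_D s hs.1.le hs.2 θ
      exact this.aestronglyMeasurable
    · filter_upwards [hev] with s hs
      filter_upwards with θ _
      exact hb _ (mem_D s hs.1.le hs.2 θ)
    · exact intervalIntegrable_const
    · have hae : ∀ᵐ θ : ℝ, θ ≠ 0 := by
        have : ({0}ᶜ : Set ℝ) ∈ ae (volume : Measure ℝ) := by
          rw [compl_mem_ae_iff]; exact Real.volume_singleton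
        filter_upwards [this] with θ hθ using hθ
      filter_upwards [hae] with θ h0 hθ
      rw [uIoc_of_le (by linarith [Real.pi_pos])] at hθ
      exact tend_rad G hc hθ.1 hθ.2 h0
  have hT2 : Tendsto (fun s : ℝ => mean (fun θ => G (s * exp (θ * I)))) (𝓝[<] 1)
      (𝓝 (mean (fun θ => G (exp (θ * I))))) := by
    simp only [mean]
    exact hT.const_mul _
  have hT3 : Tendsto (fun s : ℝ => mean (fun θ => G (s * exp (θ * I)))) (𝓝[<] 1) (𝓝 (G 0)) := by
    apply tendsto_const_nhds.congr'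
    filter_upwards [hev] with s hs
    rw [mean_ball G hG s hs.1 hs.2]
  exact tendsto_nhds_unique hT2 hT3

theorem t_CAU : S_CAU := by
  intro F C hF hc hb
  refine ⟨cau1 F C hF hc hb, ?_⟩
  intro n hn
  have h := cau1 (fun z => F z * z ^ n) C (hF.mul (by fun_prop)) (hc.mul (by fun_prop)) ?_
  · rw [zero_pow (by omega), mul_zero] at h
    rw [← h]
    congr 1
    funext θ
    rw [← Complex.exp_nat_mul]
    congr 2
    ring
  · intro z hz
    have h1 := hb z hz
    have h2 : ‖z‖ ^ n ≤ 1 := by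
      apply pow_le_one₀ (norm_nonneg _)
      rw [D, Metric.mem_ball, dist_zero_right] at hz
      exact hz.le
    rw [norm_mul, norm_pow]
    calc ‖F z‖ * ‖z‖ ^ n ≤ ‖F z‖ * 1 := mul_le_mul_of_nonneg_left h2 (norm_nonneg _)
      _ ≤ C := by rw [mul_one]; exact h1

end Pool.Agent.Run7.h888.AR
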