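import Pool.Agent.Run7.h58.AR.Iface

/-!
# MP_0d9f0f_an (helper58), piece GROW (helper888)
-/

set_option autoImplicit false

open MeasureTheory Filter Topology Set Complex Pool.Agent.Run7.h58.AR

namespace Pool.Agent.Run7.h888.AR

lemma sn_eq : sn = dslope Complex.sin 0 := by
  funext v
  unfold sn
  split_ifs with h
  · rw [h, dslope_same, Complex.deriv_sin, Complex.cos_zero]
  · rw [dslope_of_ne _ h, slope_def_field, Complex.sin_zero, sub_zero, sub_zero]

lemma sn_diff : Differentiable ℂ sn := by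
  rw [sn_eq, ← differentiableOn_univ, Complex.differentiableOn_dslope univ_mem]
  exact Complex.differentiable_sin.differentiableOn

lemma norm_exp_le (w : ℂ) : ‖exp w‖ ≤ Real.exp ‖w‖ := by
  rw [Complex.norm_exp]
  exact Real.exp_le_exp.2 (Complex.re_le_norm w)

lemma norm_cos_le (v : ℂ) : ‖Complex.cos v‖ ≤ Real.exp ‖v‖ := by
  rw [Complex.cos, norm_div, Complex.norm_ofNat]
  have h1 : ‖exp (v * I)‖ ≤ Real.exp ‖v‖ := by
    have := norm_exp_le (v * I)
    rwa [norm_mul, Complex.norm_I, mul_one] at this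
  have h2 : ‖exp (-v * I)‖ ≤ Real.exp ‖v‖ := by
    have := norm_exp_le (-v * I)
    rwa [norm_mul, Complex.norm_I, mul_one, norm_neg] at this
  have := norm_add_le (exp (v * I)) (exp (-v * I))
  rw [div_le_iff₀ (by norm_num)]
  linarith

lemma norm_sin_le (v : ℂ) : ‖Complex.sin v‖ ≤ Real.exp ‖v‖ * ‖v‖ := by
  have h := (convex_closedBall (0 : ℂ) ‖v‖).norm_image_sub_le_of_norm_deriv_le
    (f := Complex.sin) (C := Real.exp ‖v‖) (x := 0) (y := v)
    (fun x _ => Complex.differentiable_sin x)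
    (fun x hx => by
      rw [Complex.deriv_sin]
      refine (norm_cos_le x).trans (Real.exp_le_exp.2 ?_)
      simpa using hx)
    (by simp) (by simp)
  simpa using h

lemma norm_sn_le (v : ℂ) : ‖sn v‖ ≤ Real.exp ‖v‖ := by
  unfold sn
  split_ifs with h
  · rw [norm_one]; exact Real.one_le_exp (norm_nonneg _)
  · rw [norm_div, div_le_iff₀ (norm_pos_iff.2 h)]
    exact norm_sin_le v

theorem t_GROW : S_GROW := by
  refine ⟨?_, ?_, ?_⟩
  · have := sn_diff
    unfold phi
    fun_prop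
  · have := sn_diff
    have h2 := Complex.differentiable_cos
    unfold AA
    fun_prop
  · intro v
    unfold AA
    have h1 := norm_cos_le v
    have h2 := norm_sn_le v
    have h3 : ‖I / 2 * (1 + v ^ 2) * sn v‖ ≤ 1 / 2 * (1 + ‖v‖ ^ 2) * Real.exp ‖v‖ := by
      rw [norm_mul, norm_mul, norm_div, Complex.norm_I, Complex.norm_ofNat]
      have h4 : ‖1 + v ^ 2‖ ≤ 1 + ‖v‖ ^ 2 := by
        refine (norm_add_le _ _).trans ?_
        rw [norm_one, norm_pow]
      apply mul_le_mul _ h2 (norm_nonneg _) (by positivity)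
      exact mul_le_mul_of_nonneg_left h4 (by norm_num)
    have h5 := norm_sub_le (Complex.cos v) (I / 2 * (1 + v ^ 2) * sn v)
    have h6 : 0 < Real.exp ‖v‖ := Real.exp_pos _
    have h7 : Real.exp ‖v‖ + 1 / 2 * (1 + ‖v‖ ^ 2) * Real.exp ‖v‖ ≤
        2 * (1 + ‖v‖) ^ 2 * Real.exp ‖v‖ := by
      have : 1 + 1 / 2 * (1 + ‖v‖ ^ 2) ≤ 2 * (1 + ‖v‖) ^ 2 := by
        nlinarith [norm_nonneg v, sq_nonneg ‖v‖]
      nlinarith
    linarith

end Pool.Agent.Run7.h888.AR
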