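import Pool.Agent.Run7.h58.AR.Iface

/-!
# MP_0d9f0f_an (helper58), piece RAY (helper888)
-/

set_option autoImplicit false

open MeasureTheory Filter Topology Set Complex Pool.Agent.Run7.h58.AR

namespace Pool.Agent.Run7.h888.AR

lemma nsq (z : ℂ) : ‖z‖ ^ 2 = z.re ^ 2 + z.im ^ 2 := by
  rw [Complex.sq_norm, Complex.normSq_apply]; ring

lemma nsq2 (p r : ℝ) : ‖(p : ℂ) + (r : ℂ) * I‖ ^ 2 = p ^ 2 + r ^ 2 := by
  rw [nsq]
  simp

/-- real and imaginary parts of the two functions on the ray -/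
lemma ray_parts (x : ℝ) (hx : 0 < x) :
    ‖AA ((x : ℂ) + x * I)‖ ^ 2 =
      (Real.cos x * Real.cosh x + ((Real.cos x * Real.sinh x - Real.sin x * Real.cosh x) / (2 * x) +
        2 * x ^ 2 * ((Real.sin x * Real.cosh x + Real.cos x * Real.sinh x) / (2 * x))) / 2) ^ 2 +
      (Real.sin x * Real.sinh x + ((Real.sin x * Real.cosh x + Real.cos x * Real.sinh x) / (2 * x) -
        2 * x ^ 2 * ((Real.cos x * Real.sinh x - Real.sin x * Real.cosh x) / (2 * x))) / 2) ^ 2 ∧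
    ‖phi ((x : ℂ) + x * I)‖ ^ 2 =
      (((Real.sin x * Real.cosh x + Real.cos x * Real.sinh x) / (2 * x) +
        2 * x ^ 2 * ((Real.cos x * Real.sinh x - Real.sin x * Real.cosh x) / (2 * x))) / 2) ^ 2 +
      (((Real.cos x * Real.sinh x - Real.sin x * Real.cosh x) / (2 * x) -
        2 * x ^ 2 * ((Real.sin x * Real.cosh x + Real.cos x * Real.sinh x) / (2 * x))) / 2) ^ 2 := by
  set s := Real.sin x
  set c := Real.cos x
  set S := Real.sinh x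
  set C := Real.cosh x
  set a := (s * C + c * S) / (2 * x) with ha
  set b := (c * S - s * C) / (2 * x) with hb
  have ha' : a * (2 * x) = s * C + c * S := by rw [ha]; field_simp
  have hb' : b * (2 * x) = c * S - s * C := by rw [hb]; field_simp
  have hsin : Complex.sin ((x : ℂ) + x * I) = ((s * C : ℝ) : ℂ) + ((c * S : ℝ) : ℂ) * I := by
    rw [Complex.sin_add_mul_I, ← Complex.ofReal_sin, ← Complex.ofReal_cos, ← Complex.ofReal_sinh,
      ← Complex.ofReal_cosh, ← Complex.ofReal_mul, ← Complex.ofReal_mul]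
  have hcos : Complex.cos ((x : ℂ) + x * I) = ((c * C : ℝ) : ℂ) - ((s * S : ℝ) : ℂ) * I := by
    rw [Complex.cos_add_mul_I, ← Complex.ofReal_sin, ← Complex.ofReal_cos, ← Complex.ofReal_sinh,
      ← Complex.ofReal_cosh, ← Complex.ofReal_mul, ← Complex.ofReal_mul]
  have hv0 : (x : ℂ) + x * I ≠ 0 := by
    intro h
    have := congrArg Complex.re h
    simp at this
    exact hx.ne' this
  have hsn : sn ((x : ℂ) + x * I) = (a : ℂ) + (b : ℂ) * I := by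
    unfold sn
    rw [if_neg hv0, div_eq_iff hv0, hsin]
    apply Complex.ext
    · simp
      linarith
    · simp
      linarith
  have hv2 : ((x : ℂ) + x * I) ^ 2 = ((2 * x ^ 2 : ℝ) : ℂ) * I := by
    have : ((x : ℂ) + x * I) ^ 2 = (x : ℂ) ^ 2 * (1 + I ^ 2) + 2 * (x : ℂ) ^ 2 * I := by ring
    rw [this, Complex.I_sq]
    push_cast
    ring
  have hAA : AA ((x : ℂ) + x * I) =
      ((c * C + (b + 2 * x ^ 2 * a) / 2 : ℝ) : ℂ) + ((-(s * S + (a - 2 * x ^ 2 * b) / 2) : ℝ) : ℂ) * I := by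
    unfold AA
    rw [hcos, hsn, hv2]
    generalize 2 * x ^ 2 = q2
    push_cast
    linear_combination (-(1 / 2 : ℂ) * b - (1 / 2 : ℂ) * q2 * a - (1 / 2 : ℂ) * q2 * b * I) *
      Complex.I_sq
  have hphi : phi ((x : ℂ) + x * I) =
      (((a + 2 * x ^ 2 * b) / 2 : ℝ) : ℂ) + (((b - 2 * x ^ 2 * a) / 2 : ℝ) : ℂ) * I := by
    unfold phi
    rw [hsn, hv2]
    generalize 2 * x ^ 2 = q2
    push_cast
    linear_combination (-(1 / 2 : ℂ) * q2 * b) * Complex.I_sq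
  constructor
  · rw [hAA, nsq2, neg_sq]
  · rw [hphi, nsq2]

lemma ray_real (x : ℝ) (hx : 7 ≤ x) (s c S C : ℝ) (hsc : s ^ 2 + c ^ 2 = 1) (hSC : C ^ 2 = 1 + S ^ 2)
    (hS : 1 ≤ S) (hC0 : 0 < C) :
    (((s * C + c * S) / (2 * x) + 2 * x ^ 2 * ((c * S - s * C) / (2 * x))) / 2) ^ 2 +
      (((c * S - s * C) / (2 * x) - 2 * x ^ 2 * ((s * C + c * S) / (2 * x))) / 2) ^ 2 + x / 4 * C ^ 2 ≤
    (c * C + ((c * S - s * C) / (2 * x) + 2 * x ^ 2 * ((s * C + c * S) / (2 * x))) / 2) ^ 2 +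
      (s * S + ((s * C + c * S) / (2 * x) - 2 * x ^ 2 * ((c * S - s * C) / (2 * x))) / 2) ^ 2 := by
  have hx0 : 0 < x := by linarith
  have e : (c * C + ((c * S - s * C) / (2 * x) + 2 * x ^ 2 * ((s * C + c * S) / (2 * x))) / 2) ^ 2 +
      (s * S + ((s * C + c * S) / (2 * x) - 2 * x ^ 2 * ((c * S - s * C) / (2 * x))) / 2) ^ 2 -
      ((((s * C + c * S) / (2 * x) + 2 * x ^ 2 * ((c * S - s * C) / (2 * x))) / 2) ^ 2 +
      (((c * S - s * C) / (2 * x) - 2 * x ^ 2 * ((s * C + c * S) / (2 * x))) / 2) ^ 2) =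
      c ^ 2 * C ^ 2 + s ^ 2 * S ^ 2 + (C * S * (s ^ 2 + c ^ 2) - s * c * (C ^ 2 - S ^ 2)) / (2 * x) +
        x * (C * S * (s ^ 2 + c ^ 2) + s * c * (C ^ 2 - S ^ 2)) := by
    field_simp
    ring
  have h1 : C ^ 2 - S ^ 2 = 1 := by linarith
  rw [hsc, h1] at e
  have h2 : |s * c| ≤ 1 / 2 := by
    rw [abs_le]
    constructor <;> nlinarith [sq_nonneg (s + c), sq_nonneg (s - c)]
  rw [abs_le] at h2
  have hCS : S ≤ C := by nlinarith
  have h3 : 1 ≤ C * S := by nlinarith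
  have h4 : 0 ≤ (C * S * 1 - s * c * 1) / (2 * x) := by
    apply div_nonneg
    · linarith [h2.2]
    · linarith
  have h5 : C ≤ 2 * S := by nlinarith
  have h6 : C ^ 2 / 4 ≤ C * S * 1 + s * c * 1 := by
    have : C ^ 2 / 2 ≤ C * S := by nlinarith
    have : 1 / 2 ≤ C * S / 2 := by linarith
    linarith [h2.1]
  have h7 : x * (C ^ 2 / 4) ≤ x * (C * S * 1 + s * c * 1) := mul_le_mul_of_nonneg_left h6 hx0.le
  have h8 : 0 ≤ c ^ 2 * C ^ 2 + s ^ 2 * S ^ 2 := by positivity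
  linarith

lemma ray_up (x : ℝ) (hx : 7 ≤ x) (s c S C : ℝ) (hsc : s ^ 2 + c ^ 2 = 1) (hSC : C ^ 2 = 1 + S ^ 2)
    (hS : 1 ≤ S) (hC0 : 0 < C) :
    (c * C + ((c * S - s * C) / (2 * x) + 2 * x ^ 2 * ((s * C + c * S) / (2 * x))) / 2) ^ 2 +
      (s * S + ((s * C + c * S) / (2 * x) - 2 * x ^ 2 * ((c * S - s * C) / (2 * x))) / 2) ^ 2 ≤
      2 * x ^ 2 * C ^ 2 := by
  have hx0 : 0 < x := by linarith
  set a := (s * C + c * S) / (2 * x) with ha
  set b := (c * S - s * C) / (2 * x) with hb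
  have hab : a ^ 2 + b ^ 2 ≤ C ^ 2 / (2 * x ^ 2) := by
    have e : a ^ 2 + b ^ 2 = (s ^ 2 * C ^ 2 + c ^ 2 * S ^ 2) / (2 * x ^ 2) := by
      rw [ha, hb]; field_simp; ring
    rw [e]
    apply div_le_div_of_nonneg_right _ (by positivity)
    have : s ^ 2 * C ^ 2 + c ^ 2 * S ^ 2 = C ^ 2 - c ^ 2 := by
      have : S ^ 2 = C ^ 2 - 1 := by linarith
      rw [this]
      have : s ^ 2 = 1 - c ^ 2 := by linarith
      rw [this]; ring
    rw [this]
    nlinarith [sq_nonneg c]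
  have hcos : (c * C) ^ 2 + (s * S) ^ 2 ≤ C ^ 2 := by
    have h1 : S ^ 2 = C ^ 2 - 1 := by linarith
    have h2 : c ^ 2 = 1 - s ^ 2 := by linarith
    have : (c * C) ^ 2 + (s * S) ^ 2 = C ^ 2 - s ^ 2 := by
      rw [mul_pow, mul_pow, h1, h2]; ring
    rw [this]; nlinarith [sq_nonneg s]
  -- (p + q) ^ 2 ≤ (1 + 1 / 9) ... use the quadratic inequality with weight
  have key : ∀ p q : ℝ, (p + q) ^ 2 ≤ 3 * p ^ 2 + 3 / 2 * q ^ 2 := fun p q => by
    nlinarith [sq_nonneg (2 * p - q)]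
  have k1 := key (c * C) ((b + 2 * x ^ 2 * a) / 2)
  have k2 := key (s * S) ((a - 2 * x ^ 2 * b) / 2)
  have k3 : ((b + 2 * x ^ 2 * a) / 2) ^ 2 + ((a - 2 * x ^ 2 * b) / 2) ^ 2 =
      (1 + 4 * x ^ 4) / 4 * (a ^ 2 + b ^ 2) := by ring
  have k4 : (1 + 4 * x ^ 4) / 4 * (a ^ 2 + b ^ 2) ≤ (1 + 4 * x ^ 4) / 4 * (C ^ 2 / (2 * x ^ 2)) :=
    mul_le_mul_of_nonneg_left hab (by positivity)
  have k5 : (1 + 4 * x ^ 4) / 4 * (C ^ 2 / (2 * x ^ 2)) ≤ (1 + x ^ 2 / 2) * C ^ 2 := by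
    have : (1 + 4 * x ^ 4) / 4 * (C ^ 2 / (2 * x ^ 2)) = ((1 + 4 * x ^ 4) / (8 * x ^ 2)) * C ^ 2 := by
      field_simp
      ring
    rw [this]
    apply mul_le_mul_of_nonneg_right _ (sq_nonneg _)
    rw [div_le_iff₀ (by positivity)]
    nlinarith [sq_nonneg x]
  have k6 : (3 : ℝ) * C ^ 2 + 3 / 2 * ((1 + x ^ 2 / 2) * C ^ 2) ≤ 2 * x ^ 2 * C ^ 2 := by
    have : (3 : ℝ) + 3 / 2 * (1 + x ^ 2 / 2) ≤ 2 * x ^ 2 := by nlinarith
    nlinarith [sq_nonneg C]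
  linarith

theorem t_RAY : S_RAY := by
  intro q hq
  set x : ℝ := q * (Real.sqrt 2 / 2) with hxd
  have h2 : Real.sqrt 2 ^ 2 = 2 := Real.sq_sqrt (by norm_num)
  have h2p : 0 < Real.sqrt 2 := by positivity
  have hs1 : 1.414 ≤ Real.sqrt 2 := by
    rw [Real.le_sqrt (by norm_num) (by norm_num)]; norm_num
  have hs2 : Real.sqrt 2 ≤ 1.415 := by
    rw [Real.sqrt_le_left (by norm_num)]; norm_num
  have hx7 : 7 ≤ x := by rw [hxd]; nlinarith
  have hq2 : q ^ 2 = 2 * x ^ 2 := by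
    rw [hxd, mul_pow, div_pow, h2]; ring
  have hv : exp (Real.pi / 4 * I) * q = (x : ℂ) + x * I := by
    rw [Complex.exp_mul_I]
    have e1 : Complex.cos (Real.pi / 4) = ((Real.sqrt 2 / 2 : ℝ) : ℂ) := by
      rw [← Real.cos_pi_div_four]; push_cast; rfl
    have e2 : Complex.sin (Real.pi / 4) = ((Real.sqrt 2 / 2 : ℝ) : ℂ) := by
      rw [← Real.sin_pi_div_four]; push_cast; rfl
    rw [e1, e2, hxd]
    push_cast
    ring
  rw [hv]
  obtain ⟨hA, hP⟩ := ray_parts x (by linarith)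
  have hS : 1 ≤ Real.sinh x := by
    have := Real.self_le_sinh_iff.2 (show 0 ≤ x by linarith)
    linarith
  have hC0 := Real.cosh_pos x
  have hSC : Real.cosh x ^ 2 = 1 + Real.sinh x ^ 2 := by
    have := Real.cosh_sq x; linarith
  have hsc : Real.sin x ^ 2 + Real.cos x ^ 2 = 1 := Real.sin_sq_add_cos_sq x
  have r1 := ray_real x hx7 _ _ _ _ hsc hSC hS hC0
  have r2 := ray_up x hx7 _ _ _ _ hsc hSC hS hC0
  rw [← hA, ← hP] at r1
  rw [← hA] at r2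
  set A2 := ‖AA ((x : ℂ) + x * I)‖ ^ 2
  have hq0 : 0 < q := by linarith
  have h3 : 1 / (8 * q) * A2 ≤ x / 4 * Real.cosh x ^ 2 := by
    have h4 : 1 / (8 * q) * A2 ≤ 1 / (8 * q) * (2 * x ^ 2 * Real.cosh x ^ 2) :=
      mul_le_mul_of_nonneg_left r2 (by positivity)
    have h5 : 1 / (8 * q) * (2 * x ^ 2 * Real.cosh x ^ 2) = q / 8 * Real.cosh x ^ 2 := by
      rw [← hq2]; field_simp
    rw [h5] at h4
    refine h4.trans ?_
    apply mul_le_mul_of_nonneg_right _ (sq_nonneg _)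
    rw [hxd]
    nlinarith
  linarith

end Pool.Agent.Run7.h888.AR
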